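import Mathlib
import Pool.Agent.Helper43.RK.Defs3

/-!
Project RK (MP_aa96c4_al), master text section 2: the E-SERIES of `X = C_G(P_j)` for a character
`χ` of `Z' = X ∩ P_j`.

`E w = {(x, τ) ∈ X × ℚ/ℤ : x ∈ X_w, p ^ N τ + χ (x ^ p ^ N) = 0}`, `N = NN p H w` the least number
with `p ^ 3 * H ≤ p ^ N * w` (for `w = 0` we put `E 0 = E 1`).
-/

namespace Pool.Agent.Helper26.RK

open RK43 RKC2 Pool.Agent.Helper27.BE Pool.Agent.Helper60.RK

/-- The least `N` with `p ^ 3 * H ≤ p ^ N * w`. -/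
noncomputable def NN (p H w : ℕ) : ℕ := sInf {N | p ^ 3 * H ≤ p ^ N * w}

lemma NN_spec {p H w : ℕ} (hp : 1 < p) (hw : 1 ≤ w) : p ^ 3 * H ≤ p ^ NN p H w * w := by
  have hne : {N | p ^ 3 * H ≤ p ^ N * w}.Nonempty := by
    refine ⟨p ^ 3 * H, ?_⟩
    show p ^ 3 * H ≤ p ^ (p ^ 3 * H) * w
    have h1 : p ^ 3 * H ≤ p ^ (p ^ 3 * H) := (Nat.lt_pow_self hp).le
    calc p ^ 3 * H ≤ p ^ (p ^ 3 * H) := h1
      _ = p ^ (p ^ 3 * H) * 1 := (mul_one _).symm
      _ ≤ p ^ (p ^ 3 * H) * w := Nat.mul_le_mul_left _ hw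
  exact Nat.sInf_mem hne

lemma NN_le {p H w b : ℕ} (h : p ^ 3 * H ≤ p ^ b * w) : NN p H w ≤ b := Nat.sInf_le h

/-- `ℚ/ℤ` is divisible. -/
lemma TT_div (n : ℕ) (hn : n ≠ 0) (t : TT) : ∃ τ : TT, n • τ = t := by
  refine ⟨DivisibleBy.div t (n : ℤ), ?_⟩
  have h := DivisibleBy.div_cancel (A := TT) (α := ℤ) (n := (n : ℤ)) t (by exact_mod_cast hn)
  rwa [natCast_zsmul] at h

section

variable {G : Type} [Group G] {p : ℕ} [hp : Fact p.Prime]

lemma XW_anti (k j : ℕ) : Antitone (XW p G k j) := fun _ _ h =>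
  inf_le_inf_left _ (dimSub_anti h)

lemma XW_le (k j w : ℕ) : XW p G k j w ≤ Cj (PP p G k) j := inf_le_left

lemma XW_zero (k j : ℕ) : XW p G k j 0 = Cj (PP p G k) j := by
  rw [XW, dimSub_zero, inf_top_eq]

lemma XW_one (k j : ℕ) : XW p G k j 1 = Cj (PP p G k) j := by
  rw [XW, dimSub_one, inf_top_eq]

lemma XW_pow {k j w : ℕ} {x : G} (hx : x ∈ XW p G k j w) (s : ℕ) :
    x ^ p ^ s ∈ XW p G k j (p ^ s * w) := by
  refine ⟨Subgroup.pow_mem _ hx.1 _, ?_⟩
  rw [mul_comm]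
  exact dimSub_pow_prime_pow hx.2 s

lemma XW_comm {k j v w : ℕ} {x y : G} (hx : x ∈ XW p G k j v) (hy : y ∈ XW p G k j w) :
    x⁻¹ * y⁻¹ * x * y ∈ XW p G k j (v + w) := by
  refine ⟨Subgroup.mul_mem _ (Subgroup.mul_mem _ (Subgroup.mul_mem _ (Subgroup.inv_mem _ hx.1)
    (Subgroup.inv_mem _ hy.1)) hx.1) hy.1, ?_⟩
  have h := dimSub_comm (p := p) (Subgroup.inv_mem _ hx.2) (Subgroup.inv_mem _ hy.2)
  simpa using h

/-- elements of `Z' = X ∩ P_j` commute with `X`. -/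
lemma XW_central {k j : ℕ} {z x : G} (hz : z ∈ XW p G k j (HH p k j))
    (hx : x ∈ Cj (PP p G k) j) : z * x = x * z := by
  have hz2 : z ∈ PP p G k j := hz.2
  exact (Subgroup.mem_centralizer_iff.1 hx z hz2)

variable {k j : ℕ} {χ : G → TT}

section chi

variable (hχ : ∀ z ∈ XW p G k j (HH p k j), ∀ w ∈ XW p G k j (HH p k j), χ (z * w) = χ z + χ w)

include hχ

lemma chi_one : χ 1 = 0 := by
  have h := hχ 1 (Subgroup.one_mem _) 1 (Subgroup.one_mem _)
  rw [mul_one] at h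
  exact left_eq_add.1 h

lemma chi_pow {z : G} (hz : z ∈ XW p G k j (HH p k j)) (n : ℕ) : χ (z ^ n) = n • χ z := by
  induction n with
  | zero => rw [pow_zero, zero_smul, chi_one hχ]
  | succ n ih => rw [pow_succ, hχ _ (Subgroup.pow_mem _ hz n) _ hz, ih, succ_nsmul]

lemma chi_inv {z : G} (hz : z ∈ XW p G k j (HH p k j)) : χ z⁻¹ = - χ z := by
  have h := hχ z hz z⁻¹ (Subgroup.inv_mem _ hz)
  rw [mul_inv_cancel, chi_one hχ] at h
  exact (neg_eq_of_add_eq_zero_right h.symm).symm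

end chi

/-- The E-series: characterised by its members. -/
structure ES (p : ℕ) [Fact p.Prime] {G : Type} [Group G] (k j : ℕ) (χ : G → TT)
    (E : ℕ → Subgroup (G × Multiplicative TT)) : Prop where
  zero : E 0 = E 1
  mem : ∀ w, 1 ≤ w → ∀ a : G × Multiplicative TT, a ∈ E w ↔ a.1 ∈ XW p G k j w ∧
    p ^ NN p (HH p k j) w • Multiplicative.toAdd a.2 + χ (a.1 ^ p ^ NN p (HH p k j) w) = 0

section basics

variable (hχ : ∀ z ∈ XW p G k j (HH p k j), ∀ w ∈ XW p G k j (HH p k j), χ (z * w) = χ z + χ w)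

/-- `x ^ p ^ b` is in `Z'` as soon as `H ≤ p ^ b w`. -/
lemma pow_mem_Z {w b : ℕ} {x : G} (hx : x ∈ XW p G k j w)
    (hb : HH p k j ≤ p ^ b * w) : x ^ p ^ b ∈ XW p G k j (HH p k j) :=
  XW_anti k j hb (XW_pow hx b)

lemma le_of_p3 {w b H : ℕ} (hb : p ^ 3 * H ≤ p ^ b * w) : 2 * H ≤ p ^ b * w := by
  have h2 : 2 ≤ p ^ 3 := by
    have := hp.out.two_le
    calc 2 ≤ p := this
      _ = p ^ 1 := (pow_one p).symm
      _ ≤ p ^ 3 := Nat.pow_le_pow_right (by omega) (by omega)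
  exact (Nat.mul_le_mul_right H h2).trans hb

include hχ in
/-- scaling: the relation at level `N` gives the relation at each level `b ≥ N`. -/
lemma rel_up {w N b : ℕ} {x : G} (hx : x ∈ XW p G k j w) (τ : TT)
    (hN : p ^ 3 * HH p k j ≤ p ^ N * w) (hNb : N ≤ b)
    (h : p ^ N • τ + χ (x ^ p ^ N) = 0) : p ^ b • τ + χ (x ^ p ^ b) = 0 := by
  obtain ⟨c, rfl⟩ := Nat.exists_eq_add_of_le hNb
  have hz : x ^ p ^ N ∈ XW p G k j (HH p k j) :=
    pow_mem_Z hx (by have := le_of_p3 (p := p) hN; omega)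
  have h1 : x ^ p ^ (N + c) = (x ^ p ^ N) ^ p ^ c := by rw [← pow_mul, pow_add]
  rw [h1, chi_pow hχ hz, pow_add, mul_comm, mul_smul, ← smul_add, h, smul_zero]

/-- EXISTENCE of the E-series, from the power homomorphism `PowHom`. -/
theorem exists_ES [Finite G] (hPH : PowHom p) (hG : IsPGroup p G) (hk : 1 ≤ k)
    (hgam : gam G (k + 1) = ⊥)
    (hχ : ∀ z ∈ XW p G k j (HH p k j), ∀ w ∈ XW p G k j (HH p k j), χ (z * w) = χ z + χ w) :
    ∃ E : ℕ → Subgroup (G × Multiplicative TT), ES p k j χ E := by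
  have hp1 : 1 < p := hp.out.one_lt
  have key : ∀ w, 1 ≤ w → ∃ E : Subgroup (G × Multiplicative TT), ∀ a : G × Multiplicative TT,
      a ∈ E ↔ a.1 ∈ XW p G k j w ∧
      p ^ NN p (HH p k j) w • Multiplicative.toAdd a.2 + χ (a.1 ^ p ^ NN p (HH p k j) w) = 0 := by
    intro w hw
    set N := NN p (HH p k j) w with hNdef
    have hN : p ^ 3 * HH p k j ≤ p ^ N * w := NN_spec hp1 hw
    have hN2 : 2 * HH p k j ≤ p ^ N * w := le_of_p3 (p := p) hN
    have hN1 : HH p k j ≤ p ^ N * w := by omega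
    have hhom := (hPH hG k hk hgam j w N hN2).1
    refine ⟨{ carrier := {a | a.1 ∈ XW p G k j w ∧
                p ^ N • Multiplicative.toAdd a.2 + χ (a.1 ^ p ^ N) = 0}
              one_mem' := ?_
              mul_mem' := ?_
              inv_mem' := ?_ }, fun a => Iff.rfl⟩
    · rintro a b ⟨ha, ha'⟩ ⟨hb, hb'⟩
      refine ⟨Subgroup.mul_mem _ ha hb, ?_⟩
      have e1 : (a * b).1 ^ p ^ N = a.1 ^ p ^ N * b.1 ^ p ^ N := hhom _ ha _ hb
      rw [e1, hχ _ (pow_mem_Z ha hN1) _ (pow_mem_Z hb hN1)]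
      have e2 : Multiplicative.toAdd (a * b).2 =
          Multiplicative.toAdd a.2 + Multiplicative.toAdd b.2 := rfl
      rw [e2, smul_add]
      calc _ = (p ^ N • Multiplicative.toAdd a.2 + χ (a.1 ^ p ^ N)) +
            (p ^ N • Multiplicative.toAdd b.2 + χ (b.1 ^ p ^ N)) := by abel
        _ = 0 := by rw [ha', hb', add_zero]
    · refine ⟨Subgroup.one_mem _, ?_⟩
      have e1 : ((1 : G × Multiplicative TT).1) ^ p ^ N = 1 := one_pow _
      have e2 : Multiplicative.toAdd (1 : G × Multiplicative TT).2 = 0 := rfl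
      rw [e1, e2, chi_one hχ, smul_zero, add_zero]
    · rintro a ⟨ha, ha'⟩
      refine ⟨Subgroup.inv_mem _ ha, ?_⟩
      have e1 : (a⁻¹).1 ^ p ^ N = (a.1 ^ p ^ N)⁻¹ := inv_pow _ _
      have e2 : Multiplicative.toAdd (a⁻¹).2 = - Multiplicative.toAdd a.2 := rfl
      rw [e1, e2, chi_inv hχ (pow_mem_Z ha hN1), smul_neg, ← neg_add, ha', neg_zero]
  choose! E hE using key
  refine ⟨fun w => E (max w 1), ?_, fun w hw a => ?_⟩
  · simp
  · have : max w 1 = w := by omega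
    simp only [this]
    exact hE w hw a

variable {E : ℕ → Subgroup (G × Multiplicative TT)}

lemma ES.fst_mem (h : ES p k j χ E) {w : ℕ} {a : G × Multiplicative TT} (ha : a ∈ E w) :
    a.1 ∈ XW p G k j w := by
  rcases Nat.eq_zero_or_pos w with rfl | hw
  · rw [h.zero] at ha
    rw [XW_zero, ← XW_one]
    exact ((h.mem 1 le_rfl a).1 ha).1
  · exact ((h.mem w hw a).1 ha).1

lemma ES.fst_mem_C (h : ES p k j χ E) {w : ℕ} {a : G × Multiplicative TT} (ha : a ∈ E w) :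
    a.1 ∈ Cj (PP p G k) j := XW_le k j w (h.fst_mem ha)

include hχ in
/-- members satisfy the relation at each large level. -/
lemma ES.rel (h : ES p k j χ E) {w b : ℕ} (hw : 1 ≤ w) {a : G × Multiplicative TT} (ha : a ∈ E w)
    (hb : p ^ 3 * HH p k j ≤ p ^ b * w) :
    p ^ b • Multiplicative.toAdd a.2 + χ (a.1 ^ p ^ b) = 0 := by
  have h1 := (h.mem w hw a).1 ha
  exact rel_up hχ h1.1 _ (NN_spec hp.out.one_lt hw) (NN_le hb) h1.2

include hχ in
/-- membership from the relation at any level `b ≤ N_w` that is large enough for the powers. -/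
lemma ES.mem_of_rel (h : ES p k j χ E) {v w b : ℕ} (hw : 1 ≤ w) {a : G × Multiplicative TT}
    (hv : a.1 ∈ XW p G k j v) (hvw : w ≤ v) (hbv : HH p k j ≤ p ^ b * v)
    (hbN : b ≤ NN p (HH p k j) w)
    (hr : p ^ b • Multiplicative.toAdd a.2 + χ (a.1 ^ p ^ b) = 0) : a ∈ E w := by
  rw [h.mem w hw]
  refine ⟨XW_anti k j hvw hv, ?_⟩
  obtain ⟨c, hc⟩ := Nat.exists_eq_add_of_le hbN
  have hz : a.1 ^ p ^ b ∈ XW p G k j (HH p k j) := pow_mem_Z hv hbv
  have h1 : a.1 ^ p ^ (b + c) = (a.1 ^ p ^ b) ^ p ^ c := by rw [← pow_mul, pow_add]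
  rw [hc, h1, chi_pow hχ hz, pow_add, mul_comm, mul_smul, ← smul_add, hr, smul_zero]

include hχ in
/-- (a) the series is decreasing. -/
lemma ES.anti (h : ES p k j χ E) : Antitone E := by
  have key : ∀ v w, 1 ≤ w → w ≤ v → E v ≤ E w := by
    intro v w hw hwv a ha
    have hv : 1 ≤ v := hw.trans hwv
    have h1 := (h.mem v hv a).1 ha
    refine h.mem_of_rel hχ hw h1.1 hwv (b := NN p (HH p k j) v) ?_ ?_ h1.2
    · have := le_of_p3 (p := p) (NN_spec (p := p) (H := HH p k j) hp.out.one_lt hv)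
      omega
    · exact NN_le ((NN_spec hp.out.one_lt hw).trans (Nat.mul_le_mul_left _ hwv))
  intro w v hwv
  rcases Nat.eq_zero_or_pos w with rfl | hw
  · rcases Nat.eq_zero_or_pos v with rfl | hv
    · exact le_rfl
    · rw [h.zero]; exact key v 1 le_rfl hv
  · exact key v w hw hwv

/-- (a) elements over `X` normalise the series. -/
lemma ES.conj (h : ES p k j χ E) {w : ℕ} {a b : G × Multiplicative TT} (ha : a ∈ E w)
    (hb : b.1 ∈ Cj (PP p G k) j) : b * a * b⁻¹ ∈ E w := by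
  have key : ∀ w, 1 ≤ w → a ∈ E w → b * a * b⁻¹ ∈ E w := by
    intro w hw ha
    have h1 := (h.mem w hw a).1 ha
    have hN := NN_spec (p := p) (H := HH p k j) hp.out.one_lt hw
    have hz : a.1 ^ p ^ NN p (HH p k j) w ∈ XW p G k j (HH p k j) :=
      pow_mem_Z h1.1 (by have := le_of_p3 (p := p) hN; omega)
    rw [h.mem w hw]
    have e1 : (b * a * b⁻¹).1 = b.1 * a.1 * b.1⁻¹ := rfl
    have e2 : (b * a * b⁻¹).1 ^ p ^ NN p (HH p k j) w = a.1 ^ p ^ NN p (HH p k j) w := by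
      rw [e1, conj_pow, ← XW_central hz hb, mul_inv_cancel_right]
    refine ⟨?_, ?_⟩
    · rw [e1]
      refine ⟨Subgroup.mul_mem _ (Subgroup.mul_mem _ hb h1.1.1) (Subgroup.inv_mem _ hb), ?_⟩
      exact (dimSub_normal (p := p) (B := G) w).conj_mem _ h1.1.2 _
    · have e3 : Multiplicative.toAdd (b * a * b⁻¹).2 = Multiplicative.toAdd a.2 := by
        have : (b * a * b⁻¹).2 = b.2 * a.2 * b.2⁻¹ := rfl
        rw [this, mul_comm b.2, mul_inv_cancel_right]
      rw [e2, e3]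
      exact h1.2
  rcases Nat.eq_zero_or_pos w with rfl | hw
  · rw [h.zero] at ha ⊢; exact key 1 le_rfl ha
  · exact key w hw ha

include hχ in
/-- (b) commutators. -/
lemma ES.comm [Finite G] (hPH : PowHom p) (hG : IsPGroup p G) (hk : 1 ≤ k)
    (hgam : gam G (k + 1) = ⊥) (h : ES p k j χ E) {v w : ℕ} (hv : 1 ≤ v)
    {a b : G × Multiplicative TT} (ha : a ∈ E v) (hb : b ∈ E w) :
    a⁻¹ * b⁻¹ * a * b ∈ E (v + w) := by
  have hvw : 1 ≤ v + w := by omega
  have hN := NN_spec (p := p) (H := HH p k j) hp.out.one_lt hvw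
  set N := NN p (HH p k j) (v + w) with hNdef
  have ha1 := h.fst_mem ha
  have hb1 := h.fst_mem hb
  rw [h.mem _ hvw]
  have e1 : (a⁻¹ * b⁻¹ * a * b).1 = a.1⁻¹ * b.1⁻¹ * a.1 * b.1 := rfl
  have e3 : Multiplicative.toAdd (a⁻¹ * b⁻¹ * a * b).2 = 0 := by
    have : (a⁻¹ * b⁻¹ * a * b).2 = a.2⁻¹ * b.2⁻¹ * a.2 * b.2 := rfl
    rw [this, mul_assoc, mul_comm a.2⁻¹ b.2⁻¹, mul_assoc b.2⁻¹, inv_mul_cancel_left,
      inv_mul_cancel]
    rfl
  refine ⟨by rw [e1]; exact XW_comm ha1 hb1, ?_⟩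
  have hmax : 2 * HH p k j ≤ p ^ N * v ∨ 2 * HH p k j ≤ p ^ N * w := by
    have h4 : 4 * HH p k j ≤ p ^ N * (v + w) := by
      refine le_trans (Nat.mul_le_mul_right _ ?_) hN
      calc 4 ≤ 2 ^ 3 := by norm_num
        _ ≤ p ^ 3 := Nat.pow_le_pow_left hp.out.two_le 3
    rw [mul_add] at h4
    omega
  have hone : (a.1⁻¹ * b.1⁻¹ * a.1 * b.1) ^ p ^ N = 1 := by
    rcases hmax with h1 | h1
    · exact (hPH hG k hk hgam j v N h1).2 _ ha1 _ (XW_le k j w hb1)
    · have h2 := (hPH hG k hk hgam j w N h1).2 _ hb1 _ (XW_le k j v ha1)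
      have e4 : a.1⁻¹ * b.1⁻¹ * a.1 * b.1 = (b.1⁻¹ * a.1⁻¹ * b.1 * a.1)⁻¹ := by group
      rw [e4, inv_pow, h2, inv_one]
  rw [e1, e3, hone, chi_one hχ, smul_zero, add_zero]

include hχ in
/-- (c) `p`-th powers. -/
lemma ES.pow (h : ES p k j χ E) {w : ℕ} {a : G × Multiplicative TT} (ha : a ∈ E w) :
    a ^ p ∈ E (p * w) := by
  have hp1 := hp.out.one_lt
  rcases Nat.eq_zero_or_pos w with rfl | hw
  · rw [mul_zero]; exact Subgroup.pow_mem _ ha _
  have hpw : 1 ≤ p * w := Nat.mul_pos hp.out.pos hw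
  have hN := NN_spec (p := p) (H := HH p k j) hp1 hpw
  set N := NN p (HH p k j) (p * w) with hNdef
  have h1 := (h.mem w hw a).1 ha
  rw [h.mem _ hpw]
  have e1 : (a ^ p).1 = a.1 ^ p := rfl
  have hr := h.rel hχ (b := N + 1) hw ha (by
    calc p ^ 3 * HH p k j ≤ p ^ N * (p * w) := hN
      _ = p ^ (N + 1) * w := by ring)
  refine ⟨?_, ?_⟩
  · rw [e1]
    have := XW_pow h1.1 1
    rwa [pow_one] at this
  · have e2 : (a ^ p).1 ^ p ^ N = a.1 ^ p ^ (N + 1) := by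
      rw [e1, ← pow_mul, ← pow_succ']
    have e3 : p ^ N • Multiplicative.toAdd (a ^ p).2 =
        p ^ (N + 1) • Multiplicative.toAdd a.2 := by
      have : Multiplicative.toAdd (a ^ p).2 = p • Multiplicative.toAdd a.2 := rfl
      rw [this, ← mul_smul, ← pow_succ]
    rw [e2, e3]
    exact hr

/-- (d) lifts. -/
lemma ES.lift (h : ES p k j χ E) {w : ℕ} {x : G} (hx : x ∈ XW p G k j w) :
    ∃ τ : Multiplicative TT, (x, τ) ∈ E w := by
  have key : ∀ w, 1 ≤ w → x ∈ XW p G k j w → ∃ τ : Multiplicative TT, (x, τ) ∈ E w := by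
    intro w hw hx
    obtain ⟨τ, hτ⟩ := TT_div (p ^ NN p (HH p k j) w) (pow_ne_zero _ hp.out.ne_zero)
      (- χ (x ^ p ^ NN p (HH p k j) w))
    refine ⟨Multiplicative.ofAdd τ, ?_⟩
    rw [h.mem w hw]
    exact ⟨hx, by
      show p ^ NN p (HH p k j) w • τ + χ (x ^ p ^ NN p (HH p k j) w) = 0
      rw [hτ, neg_add_cancel]⟩
  rcases Nat.eq_zero_or_pos w with rfl | hw
  · rw [h.zero]
    exact key 1 le_rfl (by rwa [XW_one, ← XW_zero])
  · exact key w hw hx

include hχ in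
/-- the graph of `-χ` on `Z'` is contained in each `E w`, `w ≤ H`; in general `z ∈ X_w ∩ Z'`. -/
lemma ES.graph_mem (h : ES p k j χ E) {w : ℕ} {z : G} (hz : z ∈ XW p G k j (HH p k j))
    (hzw : z ∈ XW p G k j w) : (z, Multiplicative.ofAdd (- χ z)) ∈ E w := by
  have key : ∀ w, 1 ≤ w → z ∈ XW p G k j w →
      (z, Multiplicative.ofAdd (- χ z)) ∈ E w := by
    intro w hw hzw
    rw [h.mem w hw]
    refine ⟨hzw, ?_⟩
    show p ^ NN p (HH p k j) w • (- χ z) + χ (z ^ p ^ NN p (HH p k j) w) = 0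
    rw [chi_pow hχ hz, smul_neg, neg_add_cancel]
  rcases Nat.eq_zero_or_pos w with rfl | hw
  · rw [h.zero]
    exact key 1 le_rfl (by rwa [XW_one, ← XW_zero])
  · exact key w hw hzw

/-- (e) for `w ≥ p ^ 3 H` the group `E w` is the graph of `-χ` on `X_w`. -/
lemma ES.graph (h : ES p k j χ E) {w : ℕ} (hw1 : 1 ≤ w) (hw : p ^ 3 * HH p k j ≤ w)
    (a : G × Multiplicative TT) :
    a ∈ E w ↔ a.1 ∈ XW p G k j w ∧ a.2 = Multiplicative.ofAdd (- χ a.1) := by
  have h0 : NN p (HH p k j) w = 0 := by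
    have := NN_le (p := p) (H := HH p k j) (w := w) (b := 0) (by simpa using hw)
    omega
  rw [h.mem w hw1, h0, pow_zero, one_smul, pow_one]
  constructor
  · rintro ⟨h1, h2⟩
    refine ⟨h1, ?_⟩
    rw [← eq_neg_iff_add_eq_zero] at h2
    rw [← h2]; rfl
  · rintro ⟨h1, h2⟩
    refine ⟨h1, ?_⟩
    rw [h2]
    show - χ a.1 + χ a.1 = 0
    exact neg_add_cancel _

/-- elements `(1, τ)` of `E 1` are central. -/
lemma ES.tau_mem (_h : ES p k j χ E) {x : G} {τ τ' : Multiplicative TT} (h1 : (x, τ) ∈ E 1)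
    (h2 : (x, τ') ∈ E 1) : (1, τ⁻¹ * τ') ∈ E 1 := by
  have := Subgroup.mul_mem _ (Subgroup.inv_mem _ h1) h2
  have e : ((x, τ) : G × Multiplicative TT)⁻¹ * (x, τ') = (1, τ⁻¹ * τ') := by
    show (x⁻¹ * x, τ⁻¹ * τ') = _
    rw [inv_mul_cancel]
  rwa [e] at this

end basics

end

/-- E-SERIES (master text, section 2). -/
theorem eSer (p : ℕ) [Fact p.Prime] (hT : PowHom p) : ESerThm p := by
  intro G _ _ hG k hk hgam j χ hχ
  obtain ⟨E, h⟩ := exists_ES (p := p) (k := k) (j := j) (χ := χ) hT hG hk hgam hχ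
  have hNw : ∀ w, Nw p k j w = NN p (HH p k j) (max w 1) := fun _ => rfl
  have hmax : ∀ w, 1 ≤ w → max w 1 = w := fun w hw => by omega
  refine ⟨E, ?_, h.anti hχ, h.zero, ?_, ?_, ?_, ?_, ?_, ?_⟩
  · intro w x τ
    rcases Nat.eq_zero_or_pos w with rfl | hw
    · rw [h.zero, h.mem 1 le_rfl, hNw, XW_zero, ← XW_one]
      exact Iff.rfl
    · rw [h.mem w hw, hNw, hmax w hw]
      exact Iff.rfl
  · intro a b x hx y hy
    rcases Nat.eq_zero_or_pos a with rfl | ha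
    · rcases Nat.eq_zero_or_pos b with rfl | hb
      · rw [h.zero] at hx hy ⊢
        exact Subgroup.mul_mem _ (Subgroup.mul_mem _ (Subgroup.mul_mem _ (Subgroup.inv_mem _ hx)
          (Subgroup.inv_mem _ hy)) hx) hy
      · rw [h.zero] at hx
        exact h.anti hχ (by omega) (h.comm hχ hT hG hk hgam le_rfl hx hy)
    · exact h.comm hχ hT hG hk hgam ha hx hy
  · intro a x hx
    exact h.pow hχ hx
  · intro w x hx
    obtain ⟨τ, hτ⟩ := h.lift hx
    exact ⟨Multiplicative.toAdd τ, hτ⟩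
  · intro w b x τ hx hb
    have hw : 1 ≤ w := by
      rcases Nat.eq_zero_or_pos w with rfl | hw
      · exfalso
        rw [mul_zero] at hb
        have h1 : 0 < p ^ 3 * HH p k j :=
          Nat.mul_pos (pow_pos (Fact.out : p.Prime).pos 3)
            (Nat.mul_pos (pow_pos (Fact.out : p.Prime).pos j) hk)
        omega
      · exact hw
    exact h.rel hχ hw hx hb
  · intro w z hzw hz
    exact h.graph_mem hχ hz hzw
  · intro z hz x hx
    exact XW_central hz hx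

end Pool.Agent.Helper26.RK
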