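import Mathlib
import Pool.Agent.Helper43.RK.Defs3
import Pool.Agent.Helper2.RK.OneStep
import Pool.Agent.Helper26.RK.ESer

/-!
Project RK (MP_aa96c4_al), master text section 5: the BASE functional on `C_j`.
-/

namespace Pool.Agent.Helper26.RK

open RK43 Pool.Agent.Helper60.RK
open Pool.Agent.Helper27.BE (gam dimSub)
open RKC2 (Cj PP PP_normal)

section alt

variable {G : Type} [Group G]

/-- The alternating sum `f (g (x_1 - 1) ... (x_q - 1))`. -/
noncomputable def alt (f : G → TT) : G → List G → TT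
  | g, [] => f g
  | g, x :: l => alt f (g * x) l - alt f g l

lemma ext_of_mul_wd (f : G → TT) (g : G) (l : List G) :
    ext f (MonoidAlgebra.of ℤ G g * wd l) = alt f g l := by
  induction l generalizing g with
  | nil =>
    have : wd ([] : List G) = 1 := rfl
    rw [this, mul_one, Helper2.RK.ext_of]; rfl
  | cons x l ih =>
    have : wd (x :: l) = dl x * wd l := by simp [wd]
    rw [this, ← mul_assoc, dl, mul_sub, mul_one, ← map_mul, sub_mul, map_sub, ih, ih]
    rfl

lemma ext_wd (f : G → TT) (l : List G) : ext f (wd l) = alt f 1 l := by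
  rw [← ext_of_mul_wd, map_one, one_mul]

lemma alt_cons_one (f : G → TT) (g : G) (l : List G) :
    alt f g l = alt f 1 (g :: l) + alt f 1 l := by
  show alt f g l = (alt f (1 * g) l - alt f 1 l) + alt f 1 l
  rw [one_mul, sub_add_cancel]

lemma alt_add (f h : G → TT) (g : G) (l : List G) :
    alt (fun x => f x + h x) g l = alt f g l + alt h g l := by
  induction l generalizing g with
  | nil => rfl
  | cons x l ih =>
    show alt _ (g * x) l - alt _ g l = (alt f (g * x) l - alt f g l) +
      (alt h (g * x) l - alt h g l)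
    rw [ih, ih]; abel

lemma alt_comp {K : Type} [Group K] (π : K →* G) (f : G → TT) (g : K) (l : List K) :
    alt (fun x => f (π x)) g l = alt f (π g) (l.map π) := by
  induction l generalizing g with
  | nil => rfl
  | cons x l ih =>
    show alt _ (g * x) l - alt _ g l = alt f (π g * π x) (l.map π) - alt f (π g) (l.map π)
    rw [ih, ih, map_mul]

/-- a function which is additive on a subgroup kills the words of length at least two. -/
lemma alt_hom {F : Subgroup G} {f : G → TT} (hf : ∀ x ∈ F, ∀ y ∈ F, f (x * y) = f x + f y)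
    {g : G} (hg : g ∈ F) {l : List G} (hl : ∀ x ∈ l, x ∈ F) (h2 : 2 ≤ l.length) :
    alt f g l = 0 := by
  have key : ∀ l : List G, (∀ x ∈ l, x ∈ F) → 1 ≤ l.length → ∀ g ∈ F, ∀ h ∈ F,
      alt f g l = alt f h l := by
    intro l
    induction l with
    | nil => intro _ h; simp at h
    | cons x l ih =>
      intro hl _ g hg h hh
      have hx : x ∈ F := hl x List.mem_cons_self
      show alt f (g * x) l - alt f g l = alt f (h * x) l - alt f h l
      rcases Nat.eq_zero_or_pos l.length with h0 | h0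
      · have : l = [] := List.length_eq_zero_iff.1 h0
        subst this
        show f (g * x) - f g = f (h * x) - f h
        rw [hf g hg x hx, hf h hh x hx]; abel
      · have ih' := ih (fun y hy => hl y (List.mem_cons_of_mem _ hy)) h0
        rw [ih' (g * x) (Subgroup.mul_mem _ hg hx) g hg,
          ih' (h * x) (Subgroup.mul_mem _ hh hx) h hh, sub_self, sub_self]
  rcases l with _ | ⟨x, l⟩
  · simp at h2
  · show alt f (g * x) l - alt f g l = 0
    have hx : x ∈ F := hl x List.mem_cons_self
    have h1 : 1 ≤ l.length := by simpa using h2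
    rw [key l (fun y hy => hl y (List.mem_cons_of_mem _ hy)) h1 (g * x)
      (Subgroup.mul_mem _ hg hx) g hg, sub_self]

end alt

lemma conj_eq {M : Type*} [Group M] (a b : M) :
    b * a * b⁻¹ = a * (a⁻¹ * b⁻¹⁻¹ * a * b⁻¹) := by group

section digits

variable {G : Type} [Group G]

lemma dprod_zero (l : List (G × ℕ)) : dprod l (List.replicate l.length 0) = 1 := by
  induction l with
  | nil => rfl
  | cons q l ih =>
    show q.1 ^ 0 * dprod l (List.replicate l.length 0) = 1
    rw [ih, pow_zero, mul_one]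

lemma digit_one {p : ℕ} (hp : 0 < p) {F : Subgroup G} {l : List (G × ℕ)} {f f' : G → TT}
    (h : DigitExt p F l f f') : ∀ y ∈ F, f' y = f y := by
  intro y hy
  have := h (List.replicate l.length 0) (by simp) (by
    intro a ha
    rw [List.eq_of_mem_replicate ha]; exact hp) y hy
  rwa [dprod_zero, one_mul] at this

end digits

/-- a character of an abelian finite subgroup which does not kill `z`. -/
lemma exists_char {G : Type} [Group G] (Y : Subgroup G) (hY : ∀ x ∈ Y, ∀ y ∈ Y, x * y = y * x)
    {z : G} (hz : z ∈ Y) (hz1 : z ≠ 1) :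
    ∃ χ : G → TT, (∀ x ∈ Y, ∀ y ∈ Y, χ (x * y) = χ x + χ y) ∧ χ z ≠ 0 := by
  classical
  let _ : CommGroup Y := { (inferInstance : Group Y) with
    mul_comm := fun a b => Subtype.ext (hY a.1 a.2 b.1 b.2) }
  have hne : (Additive.ofMul (⟨z, hz⟩ : Y)) ≠ 0 := by
    intro h
    apply hz1
    have h2 : (⟨z, hz⟩ : Y) = 1 := Additive.ofMul.injective h
    exact congrArg Subtype.val h2
  obtain ⟨φ, hφ⟩ := CharacterModule.exists_character_apply_ne_zero_of_ne_zero hne
  refine ⟨fun g => if h : g ∈ Y then φ (Additive.ofMul ⟨g, h⟩) else 0, ?_, ?_⟩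
  · intro x hx y hy
    have hxy : x * y ∈ Y := Subgroup.mul_mem _ hx hy
    simp only [hx, hy, hxy, dif_pos]
    have : (⟨x * y, hxy⟩ : Y) = ⟨x, hx⟩ * ⟨y, hy⟩ := rfl
    rw [this, ofMul_mul, map_add]
  · simp only [hz, dif_pos]
    exact hφ

/-- BASE (master text, section 5). -/
theorem baseThm (p : ℕ) [hp : Fact p.Prime] (hCE : ChainExists p) (hCP : ChainProps p)
    (hES : ESerThm p) : BaseThm p := by
  intro G _ _ hG k hk hgam j hj
  have hp0 : 0 < p := hp.out.pos
  have hp3 : 2 ≤ p ^ 3 := by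
    calc 2 ≤ p := hp.out.two_le
      _ = p ^ 1 := (pow_one p).symm
      _ ≤ p ^ 3 := Nat.pow_le_pow_right hp0 (by omega)
  set H := HH p k j with hH
  have hH1 : 1 ≤ H := Nat.mul_pos (pow_pos hp0 j) hk
  set C := Cj (PP p G k) j with hC
  set Z := XW p G k j H with hZ
  have hPPn : (PP p G k j).Normal := PP_normal k j
  have hCn : C.Normal := by
    rw [hC, Cj]; infer_instance
  have hDn : (dimSub p G H).Normal := dimSub_normal _
  have hZn : Z.Normal := by
    rw [hZ, XW]; infer_instance
  have hZC : Z ≤ C := XW_le k j H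
  have hcC : Subgroup.center G ≤ C := by
    intro c hc
    rw [hC, Cj, Subgroup.mem_centralizer_iff]
    intro x _
    exact (Subgroup.mem_center_iff.1 hc x)
  have hYC : Z ⊔ Subgroup.center G ≤ C := sup_le hZC hcC
  have hYab : ∀ x ∈ Z ⊔ Subgroup.center G, ∀ y ∈ Z ⊔ Subgroup.center G, x * y = y * x := by
    intro x hx y hy
    obtain ⟨z, hz, c, hc, rfl⟩ := Subgroup.mem_sup_of_normal_left.1 hx
    have hyC := hYC hy
    have h1 : z * y = y * z := XW_central hz hyC
    have h2 : c * y = y * c := (Subgroup.mem_center_iff.1 hc y).symm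
    calc z * c * y = z * (c * y) := mul_assoc _ _ _
      _ = z * y * c := by rw [h2, mul_assoc]
      _ = y * (z * c) := by rw [h1, mul_assoc]
  have hYn : (Z ⊔ Subgroup.center G).Normal := inferInstance
  refine ⟨Z ⊔ Subgroup.center G, hYn, le_sup_left, hYC, ?_⟩
  set Y := Z ⊔ Subgroup.center G with hYdef
  intro z0 hz0 hz1
  have hz0Y : z0 ∈ Y := Subgroup.mem_sup_right hz0
  obtain ⟨χ, hχY, hχz⟩ := exists_char Y hYab hz0Y hz1
  have hZY : Z ≤ Y := le_sup_left
  have hχ : ∀ z ∈ XW p G k j (HH p k j), ∀ w ∈ XW p G k j (HH p k j), χ (z * w) = χ z + χ w :=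
    fun z hz w hw => hχY z (hZY hz) w (hZY hw)
  have hχ1 : χ 1 = 0 := chi_one hχ
  have hχpow : ∀ y ∈ Y, ∀ n : ℕ, χ (y ^ n) = n • χ y := by
    intro y hy n
    induction n with
    | zero => rw [pow_zero, zero_smul, hχ1]
    | succ n ih => rw [pow_succ, hχY _ (Subgroup.pow_mem _ hy n) _ hy, ih, succ_nsmul]
  obtain ⟨Ew, hE⟩ := hES hG k hk hgam j χ hχ
  -- first components
  have hfst : ∀ w, ∀ a ∈ Ew w, a.1 ∈ XW p G k j w := by
    rintro w ⟨x, τ⟩ ha
    exact ((hE.mem w x (Multiplicative.toAdd τ)).1 ha).1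
  -- the group `Ew 1`
  let K := ↥(Ew 1)
  let π : K →* G := (MonoidHom.fst G (Multiplicative TT)).comp (Ew 1).subtype
  let τf : K → TT := fun e => Multiplicative.toAdd e.1.2
  have hτ : ∀ x y : K, τf (x * y) = τf x + τf y := fun _ _ => rfl
  have hπC : ∀ e : K, π e ∈ C := fun e => XW_le k j 1 (hfst 1 e.1 e.2)
  let S : ℕ → Subgroup K := fun w => (Ew w).subgroupOf (Ew 1)
  let F : Subgroup K := Y.comap π
  have hSanti : Antitone S := fun a b h => Subgroup.subgroupOf_mono _ (hE.anti h)
  have hS1 : S 1 = ⊤ := Subgroup.subgroupOf_self _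
  have hFn : F.Normal := hYn.comap π
  have hFi : F.index ≠ 0 := by
    show (Y.comap π).index ≠ 0
    rw [Subgroup.index_comap, Subgroup.relIndex]
    exact Subgroup.index_ne_zero_of_finite
  have hScomm : ∀ v w, ∀ x ∈ S v, ∀ y ∈ S w, x⁻¹ * y⁻¹ * x * y ∈ S (v + w) := by
    intro v w x hx y hy
    exact hE.comm v w x.1 hx y.1 hy
  have hSpow : ∀ w, ∀ x ∈ S w, x ^ p ∈ S (p * w) := by
    intro w x hx
    exact hE.pow w x.1 hx
  have hSn : ∀ v, (S v).Normal := by
    intro v
    refine ⟨fun a ha b => ?_⟩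
    have hb : b⁻¹ ∈ S 1 := by rw [hS1]; trivial
    have h1 := hScomm v 1 a ha b⁻¹ hb
    have h2 := Subgroup.mul_mem _ ha (hSanti (by omega : v ≤ v + 1) h1)
    rw [conj_eq a b]; exact h2
  have hSH : S H ≤ F := by
    intro e he
    exact hZY (hfst H e.1 he)
  obtain ⟨l, hl, -, hchain⟩ := hCE S F H hSanti hS1 hFn hFi hSn hSH
    (fun v w _ _ _ x hx y hy => hScomm v w x hx y hy)
    (fun w _ x hx => hSanti (min_le_right _ _) (hSpow w x hx))
  have hch : Chain p S F l ⊤ := hchain S hSanti (fun _ _ => rfl)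
    (fun v w _ _ _ x hx y hy => hScomm v w x hx y hy) (fun w _ _ x hx => hSpow w x hx)
  obtain ⟨hlet, -, hdig, hexist, hkill⟩ := hCP S F ⊤ l hch
  -- the functional on `F`
  let fp : K → TT := fun e => χ (π e) + τf e
  have hfpadd : ∀ x ∈ F, ∀ y ∈ F, fp (x * y) = fp x + fp y := by
    intro x hx y hy
    show χ (π (x * y)) + τf (x * y) = (χ (π x) + τf x) + (χ (π y) + τf y)
    rw [map_mul, hχY _ hx _ hy, hτ]; abel
  have hfp1 : fp 1 = 0 := by
    show χ (π 1) + τf 1 = 0
    rw [map_one, hχ1]
    exact add_zero _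
  obtain ⟨f', hf'⟩ := hexist fp
  have hf'1 : f' 1 = 0 := by rw [digit_one hp0 hf' 1 (Subgroup.one_mem _), hfp1]
  have hf'mul : ∀ e : K, ∀ y ∈ F, f' (e * y) = f' e + fp y := by
    intro e y hy
    obtain ⟨as, has, hap, y0, hy0, rfl⟩ := hdig e (Subgroup.mem_top _)
    rw [mul_assoc, hf' as has hap _ (Subgroup.mul_mem _ hy0 hy), hf' as has hap _ hy0,
      hfpadd _ hy0 _ hy]
  -- kill
  have hKF : Kill p F S fp (Helper2.RK.Psi p) (p ^ 3 * H) := by
    intro b L hL hW hR
    rw [ext_wd]
    have hLF : ∀ x ∈ L.map Prod.fst, x ∈ F := by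
      intro x hx
      obtain ⟨a, ha, rfl⟩ := List.mem_map.1 hx
      exact (hW a ha).1
    rcases L with _ | ⟨a, L⟩
    · exact absurd rfl hL
    rcases L with _ | ⟨a', L⟩
    · have hW1 := hW a List.mem_cons_self
      have hR' : p ^ 3 * H ≤ p ^ b * a.2 := by
        have : wt [a] = a.2 := by simp [wt]
        rw [this] at hR
        exact hR
      have e1 : alt fp 1 (List.map Prod.fst [a]) = fp a.1 := by
        show fp (1 * a.1) - fp 1 = fp a.1
        rw [hfp1, sub_zero, one_mul]
      rw [e1]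
      have h2 := hE.shift a.2 b (π a.1) (τf a.1) hW1.2 hR'
      show p ^ b • (χ (π a.1) + τf a.1) = 0
      rw [smul_add, ← hχpow _ hW1.1, add_comm]
      exact h2
    · rw [alt_hom hfpadd (Subgroup.one_mem _) hLF (by simp), smul_zero]
  have hKT : Kill p ⊤ S f' (Helper2.RK.Psi p) (p ^ 3 * H) :=
    hkill fp f' hfp1 hf' (Helper2.RK.Psi p) (p ^ 3 * H)
      (fun q hq => Helper2.RK.Psi_pot hp0 q.2) hKF
  -- the functional on `C`
  have hlift : ∀ x ∈ C, ∃ e : K, π e = x := by
    intro x hx
    obtain ⟨τ, hτ⟩ := hE.lift 1 x (by rw [XW_one]; exact hx)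
    exact ⟨⟨(x, Multiplicative.ofAdd τ), hτ⟩, rfl⟩
  have hindep : ∀ e e' : K, π e = π e' → f' e - τf e = f' e' - τf e' := by
    intro e e' he
    have h1 : π (e⁻¹ * e') = 1 := by rw [map_mul, map_inv, he, inv_mul_cancel]
    have hy : e⁻¹ * e' ∈ F := by
      show π (e⁻¹ * e') ∈ Y
      rw [h1]; exact Subgroup.one_mem _
    have h2 := hf'mul e _ hy
    rw [mul_inv_cancel_left] at h2
    have h3 : fp (e⁻¹ * e') = τf e' - τf e := by
      show χ (π (e⁻¹ * e')) + τf (e⁻¹ * e') = _
      rw [h1, hχ1, zero_add, hτ]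
      show - τf e + τf e' = _
      abel
    rw [h2, h3]; abel
  classical
  let f : G → TT := fun x => if h : ∃ e : K, π e = x then f' h.choose - τf h.choose else 0
  have hf : ∀ e : K, f' e = f (π e) + τf e := by
    intro e
    have h : ∃ e' : K, π e' = π e := ⟨e, rfl⟩
    show f' e = (if h : ∃ e' : K, π e' = π e then f' h.choose - τf h.choose else 0) + τf e
    rw [dif_pos h, hindep h.choose e h.choose_spec]
    abel
  have hfmul : ∀ c ∈ C, ∀ y ∈ Y, f (c * y) = f c + χ y := by
    intro c hc y hy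
    obtain ⟨e, rfl⟩ := hlift c hc
    obtain ⟨e', rfl⟩ := hlift y (hYC hy)
    have h1 := hf'mul e e' hy
    rw [hf, hf, map_mul, hτ] at h1
    have h2 : fp e' = χ (π e') + τf e' := rfl
    rw [h2] at h1
    have h3 : f (π e * π e') + (τf e + τf e') = (f (π e) + χ (π e')) + (τf e + τf e') := by
      rw [h1]; abel
    exact add_right_cancel h3
  have hf1 : f 1 = 0 := by
    have h1 := hf 1
    rw [map_one, hf'1] at h1
    have h2 : τf 1 = 0 := rfl
    rw [h2, add_zero] at h1
    exact h1.symm
  have hwords : ∀ (b : ℕ) (L : List (G × ℕ)), 2 ≤ L.length →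
      (∀ a ∈ L, a.1 ∈ XW p G k j a.2) → p ^ 3 * HH p k j ≤ p ^ b * wt L →
      p ^ b • ext f (wd (L.map Prod.fst)) = 0 := by
    intro b L h2 hL hR
    -- lift the letters
    have hl2 : ∀ L : List (G × ℕ), (∀ a ∈ L, a.1 ∈ XW p G k j a.2) →
        ∃ L' : List (K × ℕ), (∀ a ∈ L', a.1 ∈ S a.2) ∧ L'.map Prod.snd = L.map Prod.snd ∧
          (L'.map Prod.fst).map π = L.map Prod.fst := by
      intro L
      induction L with
      | nil => intro _; exact ⟨[], by simp, rfl, rfl⟩
      | cons a L ih =>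
        intro h
        obtain ⟨L', h1, h2, h3⟩ := ih (fun x hx => h x (List.mem_cons_of_mem _ hx))
        obtain ⟨τ, hτ⟩ := hE.lift a.2 a.1 (h a List.mem_cons_self)
        have hτ1 : (a.1, Multiplicative.ofAdd τ) ∈ Ew 1 := by
          rcases Nat.eq_zero_or_pos a.2 with h0 | h0
          · rw [h0, hE.zero] at hτ; exact hτ
          · exact hE.anti h0 hτ
        refine ⟨(⟨(a.1, Multiplicative.ofAdd τ), hτ1⟩, a.2) :: L', ?_, ?_, ?_⟩
        · intro x hx
          rcases List.mem_cons.1 hx with rfl | hx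
          · exact hτ
          · exact h1 x hx
        · simp only [List.map_cons, h2]
        · simp only [List.map_cons, h3]
          rfl
    obtain ⟨L', h1, h3, h4⟩ := hl2 L hL
    have hwt : wt L' = wt L := by rw [wt, wt, h3]
    have hlen : L'.length = L.length := by
      have := congrArg List.length h3
      simpa using this
    have hne : L' ≠ [] := by
      intro h0
      rw [h0] at hlen
      simp at hlen
      omega
    have h5 := hKT b L' hne (fun a ha => ⟨Subgroup.mem_top _, h1 a ha⟩) (by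
      show p ^ 3 * H ≤ p ^ b * wt L'
      rw [hwt]; exact hR)
    rw [ext_wd] at h5 ⊢
    have h6 : f' = fun e => f (π e) + τf e := funext hf
    rw [h6, alt_add, alt_comp, map_one, h4] at h5
    have h7 : alt τf 1 (L'.map Prod.fst) = 0 :=
      alt_hom (F := ⊤) (fun x _ y _ => hτ x y) (Subgroup.mem_top _)
        (fun _ _ => Subgroup.mem_top _) (by rw [List.length_map, hlen]; exact h2)
    rw [h7, add_zero] at h5
    exact h5
  refine ⟨f, χ, ?_, ?_⟩
  swap
  · have h := hfmul 1 (Subgroup.one_mem _) z0 hz0Y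
    rw [one_mul, hf1, zero_add] at h
    rw [h]; exact hχz
  refine ⟨hf1, hχ, fun c hc z hz => hfmul c hc z (hZY hz), ?_, hwords, ?_⟩
  · intro w b c hc hR
    have hw : 1 ≤ w := by
      rcases Nat.eq_zero_or_pos w with rfl | hw
      · exfalso
        rw [mul_zero] at hR
        have h0 : 0 < p ^ 3 * H := Nat.mul_pos (by omega) hH1
        exact absurd h0 (Nat.not_lt.2 hR)
      · exact hw
    obtain ⟨τ, hτw⟩ := hE.lift w c hc
    have hτ1 := hE.anti hw hτw
    let e : K := ⟨(c, Multiplicative.ofAdd τ), hτ1⟩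
    have h1 := hKT b [(e, w)] (by simp) (by
      intro a ha
      rw [List.mem_singleton] at ha
      subst ha
      exact ⟨Subgroup.mem_top _, hτw⟩) (by
      show p ^ 3 * H ≤ p ^ b * wt [(e, w)]
      have : wt [(e, w)] = w := by simp [wt]
      rw [this]; exact hR)
    rw [ext_wd] at h1
    have e1 : alt f' 1 (List.map Prod.fst [(e, w)]) = f' e := by
      show f' (1 * e) - f' 1 = f' e
      rw [hf'1, sub_zero, one_mul]
    rw [e1, hf] at h1
    have h2 := hE.shift w b c τ hτw hR
    have h3 : f (π e) = f c := rfl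
    have h4 : τf e = τ := rfl
    rw [h3, h4, smul_add] at h1
    have h5 : p ^ b • f c = - (p ^ b • τ) := eq_neg_of_add_eq_zero_left h1
    rw [h5]
    exact (eq_neg_of_add_eq_zero_right h2).symm
  · rintro m (hm | hm) g hg
    · obtain ⟨L, hL, hR, rfl⟩ := hm
      rw [ext_of_mul_wd, alt_cons_one]
      have hlen : 2 ≤ L.length := by
        by_contra hcon
        have hle : wt L ≤ H := by
          rcases L with _ | ⟨a, L⟩
          · simp [wt]
          rcases L with _ | ⟨a', L⟩
          · have : wt [a] = a.2 := by simp [wt]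
            rw [this]; exact (hL a List.mem_cons_self).2
          · simp at hcon
        have : 2 * H ≤ H := (Nat.mul_le_mul_right H hp3).trans (hR.trans hle)
        omega
      have h1 := hwords 0 ((g, 0) :: L) (by simp; omega) (by
        intro a ha
        rcases List.mem_cons.1 ha with rfl | ha
        · show g ∈ XW p G k j 0
          rw [XW_zero]; exact hg
        · exact (hL a ha).1) (by
        rw [pow_zero, one_mul]
        have : wt ((g, 0) :: L) = wt L := by simp [wt]
        rw [this]; exact hR)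
      have h2 := hwords 0 L hlen (fun a ha => (hL a ha).1) (by
        rw [pow_zero, one_mul]; exact hR)
      rw [pow_zero, one_smul, ext_wd] at h1 h2
      have h3 : List.map Prod.fst ((g, 0) :: L) = g :: L.map Prod.fst := rfl
      rw [h3] at h1
      rw [h1, h2, add_zero]
    · obtain ⟨hm2, hmY⟩ := hm
      rw [ext_of_mul_wd]
      rcases m with _ | ⟨y1, m⟩
      · simp at hm2
      rcases m with _ | ⟨y2, m⟩
      · simp at hm2
      rcases m with _ | ⟨y3, m⟩
      · have hy1 : y1 ∈ Y := hmY y1 (by simp)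
        have hy2 : y2 ∈ Y := hmY y2 (by simp)
        show (f (g * y1 * y2) - f (g * y1)) - (f (g * y2) - f g) = 0
        rw [hfmul (g * y1) (Subgroup.mul_mem _ hg (hYC hy1)) y2 hy2, hfmul g hg y1 hy1,
          hfmul g hg y2 hy2]
        abel
      · simp at hm2

end Pool.Agent.Helper26.RK
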